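import Mathlib
import Pool.Agent.R25.HamSkel

/-!
# MP_9d0e7f_co: Hamilton cycles are not determined by small decks

For every `c < 1` there are arbitrarily large `n` and two `n`-vertex graphs with the same
`⌊c n⌋`-deck, one of which is Hamiltonian and the other is not. In particular the number of
Hamilton cycles is not determined by the `⌊c n⌋`-deck, for any constant `c < 1`.
-/

namespace Pool.Agent.Results.MP_9d0e7f_co.HamCyclesNotDetermined

open SimpleGraph

/-- The number `h(G)` of Hamilton cycles of `G`: the number of spanning subgraphs `H` of `G`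
(`H` has the same vertex set and `E(H) ⊆ E(G)`) which are isomorphic to the cycle on `n` vertices. -/
noncomputable def hamCount {n : ℕ} (G : SimpleGraph (Fin n)) : ℕ :=
  Nat.card {H : SimpleGraph (Fin n) // H ≤ G ∧ Nonempty (H ≃g cycleGraph n)}

/-- The number of `t`-element vertex sets `S` for which the induced subgraph `G[S]` is isomorphic
to `F`. -/
noncomputable def indCount {n t : ℕ} (G : SimpleGraph (Fin n)) (F : SimpleGraph (Fin t)) : ℕ :=
  Nat.card {S : Finset (Fin n) // S.card = t ∧ Nonempty (G.induce (S : Set (Fin n)) ≃g F)}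

/-- `C(G,t) = C(G',t)`: the graphs have the same multiset of isomorphism classes of induced
subgraphs on `t` vertices. -/
def SameDeck {n : ℕ} (t : ℕ) (G G' : SimpleGraph (Fin n)) : Prop :=
  ∀ F : SimpleGraph (Fin t), indCount G F = indCount G' F

open Pool.Agent.R25

theorem transport {V : Type} [Fintype V] {n : ℕ} (e : V ≃ Fin n) (G : SimpleGraph V) :
    (hamCount (G.map e.toEmbedding) ≠ 0 ↔
      ∃ H : SimpleGraph V, H ≤ G ∧ Nonempty (H ≃g cycleGraph n)) := by
  classical
  constructor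
  · intro h
    have h1 : Nonempty {H : SimpleGraph (Fin n) //
        H ≤ G.map e.toEmbedding ∧ Nonempty (H ≃g cycleGraph n)} := by
      by_contra hcon
      rw [not_nonempty_iff] at hcon
      exact h Nat.card_of_isEmpty
    obtain ⟨⟨H, hH, ⟨f⟩⟩⟩ := h1
    refine ⟨H.comap e, ?_, ⟨(SimpleGraph.Iso.comap e H).trans f⟩⟩
    intro a b hab
    have h2 := hH hab
    rw [SimpleGraph.map_adj] at h2
    obtain ⟨u, v, huv, h3, h4⟩ := h2
    have h5 : u = a := e.injective h3
    have h6 : v = b := e.injective h4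
    rw [← h5, ← h6]
    exact huv
  · rintro ⟨H, hH, ⟨f⟩⟩
    have h1 : Nonempty {H : SimpleGraph (Fin n) //
        H ≤ G.map e.toEmbedding ∧ Nonempty (H ≃g cycleGraph n)} :=
      ⟨⟨H.map e.toEmbedding, SimpleGraph.map_monotone _ hH,
        ⟨(SimpleGraph.Iso.map e H).symm.trans f⟩⟩⟩
    exact (Nat.card_pos).ne'

theorem result (c : ℝ) (h0 : 0 ≤ c) (h1 : c < 1) (n₀ : ℕ) :
    ∃ n : ℕ, n₀ ≤ n ∧ 3 ≤ n ∧ ∃ G G' : SimpleGraph (Fin n),
      SameDeck ⌊c * n⌋₊ G G' ∧ hamCount G ≠ 0 ∧ hamCount G' = 0 := by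
  classical
  -- number of wires
  obtain ⟨M₀, hM₀⟩ := exists_nat_gt (c / (1 - c))
  set M : ℕ := M₀ + 2 with hM
  have hc : 0 < 1 - c := by linarith
  have hMc : c < (M : ℝ) * (1 - c) := by
    rw [div_lt_iff₀ hc] at hM₀
    have : (M : ℝ) = M₀ + 2 := by rw [hM]; push_cast; ring
    rw [this]
    nlinarith
  have hpos : 0 < (M : ℝ) - c * (M + 1) := by nlinarith
  set C : ℕ := Fintype.card (KD M) with hC
  obtain ⟨L₀, hL₀⟩ := exists_nat_gt (c * C / ((M : ℝ) - c * (M + 1)))
  set L : ℕ := L₀ + n₀ + 1 with hL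
  have hLc : c * C < L * ((M : ℝ) - c * (M + 1)) := by
    rw [div_lt_iff₀ hpos] at hL₀
    have h3 : (L₀ : ℝ) ≤ L := by
      rw [hL]; push_cast
      have : (0 : ℝ) ≤ n₀ := Nat.cast_nonneg _
      linarith
    calc c * C < L₀ * ((M : ℝ) - c * (M + 1)) := hL₀
      _ ≤ L * ((M : ℝ) - c * (M + 1)) := mul_le_mul_of_nonneg_right h3 hpos.le
  set V := (KD M ⊕ (Fin (M + 1) × Fin L)) × Fin 3 with hV
  set n : ℕ := Fintype.card V with hn
  have hcard : n = 3 * C + 3 * ((M + 1) * L) := by
    have h2 : Fintype.card ((KD M ⊕ (Fin (M + 1) × Fin L)) × Fin 3) =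
        3 * C + 3 * ((M + 1) * L) := by
      rw [Fintype.card_prod, Fintype.card_sum, Fintype.card_prod, Fintype.card_fin,
        Fintype.card_fin, Fintype.card_fin, hC]
      ring
    exact h2
  have hL1 : 1 ≤ L := by omega
  have hnL : 3 * L ≤ n := by
    rw [hcard]
    nlinarith [Nat.zero_le (M * L), Nat.zero_le C]
  refine ⟨n, by omega, by omega, ?_⟩
  have ht : ⌊c * n⌋₊ < (M + 1 - 1) * (3 * L) := by
    rw [Nat.floor_lt (by positivity), hcard]
    push_cast
    nlinarith
  let e : V ≃ Fin n := Fintype.equivFin V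
  let τ : Equiv.Perm (Fin (M + 1)) := Equiv.swap 0 (Fin.last M)
  have hτ : Equiv.Perm.sign τ = -1 := by
    apply Equiv.Perm.sign_swap
    intro h
    have := congrArg Fin.val h
    simp only [Fin.val_zero, Fin.val_last] at this
    omega
  refine ⟨(split (D M L 1)).map e.toEmbedding, (split (D M L τ)).map e.toEmbedding, ?_, ?_, ?_⟩
  · intro F
    show dc _ _ F = dc _ _ F
    exact (dc_iso (SimpleGraph.Iso.map e (split (D M L 1))) _ F).symm.trans
      ((deck_eq (kA M) (kIn M) (kOut M) (k_sym M) (by omega) _ ht F τ).trans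
        (dc_iso (SimpleGraph.Iso.map e (split (D M L τ))) _ F))
  · rw [transport]
    obtain ⟨f, s, hf, hs, hs'⟩ := ham_of_one (M := M) (L := L) hL1 (by omega)
    exact split_of_reach (D M L 1) f hf s hs hs' n hn.symm (by omega)
  · by_contra hne
    obtain ⟨H, hH, ⟨f⟩⟩ := (transport e _).1 hne
    obtain ⟨hconn, two⟩ := cycle_facts (by omega) H f
    obtain ⟨g, hg1, hg2, hg3⟩ := succ_of_split (D M L τ) H hH hconn two
    have := sign_of_ham hL1 (by omega) τ g hg1 hg2 hg3
    rw [hτ] at this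
    exact absurd this (by decide)

end Pool.Agent.Results.MP_9d0e7f_co.HamCyclesNotDetermined
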